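import Pool.Agent.W586.GZ.Stm

/-! Project GZ: properties of averages (helper366). -/

set_option autoImplicit false

namespace Pool.Agent.W366.GZ.AVG

open Pool.Agent.W586.GZ

lemma cut_ne {A : Set ℕ} {x : ℕ → ℝ} {n : ℕ} (h : cut A x n ≠ 0) : x n ≠ 0 := by
  intro h0
  apply h
  unfold cut
  by_cases hn : n ∈ A
  · rw [Set.indicator_of_mem hn, h0]
  · rw [Set.indicator_of_notMem hn]

theorem main : S_COMB1 → S_AVG := by
  intro hcomb P N y hA0
  obtain ⟨hN, hsupp, z, hz, hzs, hy⟩ := hA0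
  have hNR : (0 : ℝ) < N := by exact_mod_cast hN
  have hyeq : y = fun n => (1 / (N : ℝ)) * (∑ i ∈ Finset.range N, z i n) := by
    funext n
    rw [hy n]
    ring
  have hev : ∀ f : ℕ →₀ ℚ, (∀ i, 0 ≤ f i) → ev f y ≤ (∑ i ∈ Finset.range N, ev f (z i)) / N := by
    intro f hf
    rw [hyeq, ev_smul_right, abs_of_pos (by positivity)]
    have h1 := ev_sum_right (Finset.range N) f hf z
    calc 1 / (N : ℝ) * ev f (fun n => ∑ i ∈ Finset.range N, z i n)
        ≤ 1 / (N : ℝ) * ∑ i ∈ Finset.range N, ev f (z i) := by gcongr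
      _ = (∑ i ∈ Finset.range N, ev f (z i)) / N := by ring
  refine ⟨?_, ?_, ?_⟩
  · intro f hf
    refine (hev f ((WW_idl P).nn f hf)).trans ?_
    rw [div_le_iff₀ hNR]
    calc ∑ i ∈ Finset.range N, ev f (z i) ≤ ∑ i ∈ Finset.range N, (2 : ℝ) :=
          Finset.sum_le_sum fun i hi => hz i (Finset.mem_range.mp hi) f hf
      _ = 2 * N := by rw [Finset.sum_const, Finset.card_range, nsmul_eq_mul, mul_comm]
  · intro t ht g hg
    obtain ⟨k, g', w, A, hk, hg', hs, rfl, _⟩ := hg.inv
    refine (ev_inv_le hg' y).trans ?_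
    have hm := P.mpos' t
    rw [div_le_div_iff_of_pos_right hm]
    have h1 := hcomb k N g' z 2 (by norm_num) (fun r n hr => (hg' r hr).nn n) hs hzs
      (fun i r hi hr => hz i hi (g' r) ⟨w r, hg' r hr⟩)
    have hkN : (k : ℝ) ≤ N := by exact_mod_cast hk.trans ht
    calc ∑ r ∈ Finset.range k, ev (g' r) y
        ≤ ∑ r ∈ Finset.range k, (∑ i ∈ Finset.range N, ev (g' r) (z i)) / N :=
          Finset.sum_le_sum fun r hr => hev (g' r) (hg' r (Finset.mem_range.mp hr)).nn
      _ = (∑ i ∈ Finset.range N, ∑ r ∈ Finset.range k, ev (g' r) (z i)) / N := by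
          rw [← Finset.sum_div, Finset.sum_comm]
      _ ≤ 4 := by
          rw [div_le_iff₀ hNR]
          linarith
  · intro A
    refine ⟨hN, fun n hn => hsupp n (cut_ne hn), fun i => cut A (z i), fun i hi => (hz i hi).cut
      (WW_idl P) A, fun i l hil hl p q hp hq => hzs i l hil hl p q (cut_ne hp) (cut_ne hq), ?_⟩
    intro n
    unfold cut
    by_cases hn : n ∈ A
    · simp only [Set.indicator_of_mem hn]
      exact hy n
    · simp only [Set.indicator_of_notMem hn]
      simp

end Pool.Agent.W366.GZ.AVG
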